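import Pool.Agent.Helper75.PZ.GoalsA

namespace Pool.Agent.Helper35.PZ

open Finset Filter Topology
open Pool.Agent.Helper75.PZ

/-- Existence of the size `h`. -/
theorem exists_h (e q : ℝ) (he : 0 ≤ e) (he2 : e < 1 / 2) (hq : 1 ≤ q)
    (h2 : (2 * (1 - e)) ^ q = 2) :
    ∃ h : ℝ, 0 < h ∧ h ≤ 1 / 4 ∧ h ^ (q - 1) ≤ 1 - 2 * e := by
  rcases eq_or_lt_of_le he with h0 | h0
  · subst h0
    refine ⟨1 / 4, by norm_num, le_rfl, ?_⟩
    have : ((1 : ℝ) / 4) ^ (q - 1) ≤ 1 :=
      Real.rpow_le_one (by norm_num) (by norm_num) (by linarith)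
    linarith
  · have hq1 : 1 < q := by
      rcases eq_or_lt_of_le hq with h1 | h1
      · exfalso
        rw [← h1, Real.rpow_one] at h2
        linarith
      · exact h1
    have hc : 0 < 1 - 2 * e := by linarith
    refine ⟨min (1 / 4) ((1 - 2 * e) ^ (1 / (q - 1))), ?_, min_le_left _ _, ?_⟩
    · exact lt_min (by norm_num) (Real.rpow_pos_of_pos hc _)
    · calc (min (1 / 4) ((1 - 2 * e) ^ (1 / (q - 1)))) ^ (q - 1)
          ≤ ((1 - 2 * e) ^ (1 / (q - 1))) ^ (q - 1) := by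
            apply Real.rpow_le_rpow
            · exact le_min (by norm_num) (Real.rpow_nonneg hc.le _)
            · exact min_le_right _ _
            · linarith
        _ = 1 - 2 * e := by
            rw [← Real.rpow_mul hc.le, one_div, inv_mul_cancel₀ (by linarith), Real.rpow_one]

/-- The chain. -/
def chn {M : Type} (x p1 p2 p3 y : M) : ℕ → M
  | 0 => x
  | 1 => p1
  | 2 => p2
  | 3 => p3
  | _ + 4 => y

/-- The distances of the chain. -/
def chd (a0 a1 a2 a3 : ℝ) : ℕ → ℝ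
  | 0 => a0
  | 1 => a1
  | 2 => a2
  | _ + 3 => a3

/-- One pair of points. -/
theorem one_pair (hSUP : P_SUP) (hNUM : P_NUM) (e q s h : ℝ) (he : 0 ≤ e) (he2 : e < 1 / 2)
    (hq : 1 ≤ q) (hqs : q * s = 1) (h2 : (2 * (1 - e)) ^ q = 2) (hh : 0 < h) (hh4 : h ≤ 1 / 4)
    (hhq : h ^ (q - 1) ≤ 1 - 2 * e)
    (M : Type) [MetricSpace M] [CompleteSpace M] (R : ℝ) (hZ : ZUpTo M e R) (x y : M)
    (hxy : x ≠ y) (hR : dist x y ≤ R) :
    ∃ (p : ℕ → M) (t : ℕ → ℝ), p 0 = x ∧ p 4 = y ∧ (∀ i < 4, 0 ≤ t i) ∧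
      ∑ i ∈ range 4, t i = 1 ∧
      (∀ i < 4, dist (p i) (p (i + 1)) ≤ (1 - (1 - 2 * e) * h) * dist x y) ∧
      (∀ i < 4, dist (p i) (p (i + 1)) ≤ (t i) ^ s * dist x y) ∧
      (∀ i < 4, dist (p i) (p (i + 1)) ≤ 1 / (1 - 2 * e) * t i * dist x y) := by
  have hD : 0 < dist x y := dist_pos.mpr hxy
  have hZ' : ZUpTo M e (dist x y) := fun u v huv hd => hZ u v huv (hd.trans hR)
  obtain ⟨p1, p2, p3, h01, h34, hsum, hor⟩ :=
    hSUP M e h x y he he2 hh (by linarith) hxy hZ'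
  set D := dist x y with hDdef
  have hc : 0 < 1 - 2 * e := by linarith
  have hc1 : 1 - 2 * e ≤ 1 := by linarith
  set a0 := dist x p1 with ha0
  set a1 := dist p1 p2 with ha1
  set a2 := dist p2 p3 with ha2
  set a3 := dist p3 y with ha3
  have n0 : 0 ≤ a0 := dist_nonneg
  have n1 : 0 ≤ a1 := dist_nonneg
  have n2 : 0 ≤ a2 := dist_nonneg
  have n3 : 0 ≤ a3 := dist_nonneg
  have hmin : h * D < a0 + a3 + min a1 a2 := by
    rcases hor with ⟨h12, hlt⟩ | ⟨h12, hlt⟩
    · rw [min_eq_left h12]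
      have : dist x p2 ≤ a0 + a1 := dist_triangle _ _ _
      linarith
    · rw [min_eq_right h12]
      have : dist p2 y ≤ a2 + a3 := dist_triangle _ _ _
      linarith
  have hk : ∀ a, a ≤ max a1 a2 → a ≤ (1 - (1 - 2 * e) * h) * D := by
    intro a ha
    have := mul_le_mul_of_nonneg_left hmin.le hc.le
    nlinarith
  have hhk : h * D ≤ (1 - (1 - 2 * e) * h) * D := by
    apply mul_le_mul_of_nonneg_right _ hD.le
    nlinarith
  -- normalised
  have hnum := hNUM e q h (a0 / D) (a3 / D) (min (a1 / D) (a2 / D)) (max (a1 / D) (a2 / D))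
    he he2 hq h2 hh (by linarith) hhq (by positivity) (by rw [div_le_iff₀ hD]; exact h01)
    (by positivity) (by rw [div_le_iff₀ hD]; exact h34)
    (le_min (by positivity) (by positivity)) min_le_max (by
      rw [min_div_div_right hD.le, max_div_div_right hD.le]
      have : (1 - 2 * e) * (a0 / D + a3 / D + min a1 a2 / D) + max a1 a2 / D
        = ((1 - 2 * e) * (a0 + a3 + min a1 a2) + max a1 a2) / D := by field_simp
      rw [this, div_le_one hD]
      exact hsum)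
  set mu : ℝ → ℝ := fun a => max (a ^ q) ((1 - 2 * e) * a) with hmu
  have hmu0 : ∀ a, 0 ≤ a → 0 ≤ mu a := fun a ha =>
    (Real.rpow_nonneg ha q).trans (le_max_left _ _)
  have hS : mu (a0 / D) + mu (a1 / D) + mu (a2 / D) + mu (a3 / D) ≤ 1 := by
    have : mu (min (a1 / D) (a2 / D)) + mu (max (a1 / D) (a2 / D))
        = mu (a1 / D) + mu (a2 / D) := by
      rcases le_total (a1 / D) (a2 / D) with h12 | h12
      · rw [min_eq_left h12, max_eq_right h12]
      · rw [min_eq_right h12, max_eq_left h12, add_comm]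
    have hn : mu (a0 / D) + mu (a3 / D) + mu (min (a1 / D) (a2 / D))
      + mu (max (a1 / D) (a2 / D)) ≤ 1 := hnum
    linarith
  set rem : ℝ := (1 - (mu (a0 / D) + mu (a1 / D) + mu (a2 / D) + mu (a3 / D))) / 4 with hrem
  have hrem0 : 0 ≤ rem := by
    rw [hrem]
    apply div_nonneg _ (by norm_num)
    linarith
  -- key facts
  have key1 : ∀ a t : ℝ, 0 ≤ a → mu (a / D) ≤ t → a ≤ t ^ s * D := by
    intro a t ha ht
    have hs0 : 0 < s := by
      by_contra hneg
      push Not at hneg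
      nlinarith
    have had : 0 ≤ a / D := by positivity
    have h1 : (a / D) ^ q ≤ t := (le_max_left _ _).trans ht
    have h3 : ((a / D) ^ q) ^ s ≤ t ^ s :=
      Real.rpow_le_rpow (Real.rpow_nonneg had q) h1 hs0.le
    rw [← Real.rpow_mul had, hqs, Real.rpow_one, div_le_iff₀ hD] at h3
    exact h3
  have key2 : ∀ a t : ℝ, mu (a / D) ≤ t → a ≤ 1 / (1 - 2 * e) * t * D := by
    intro a t ht
    have h1 : (1 - 2 * e) * (a / D) ≤ t := (le_max_right _ _).trans ht
    have h3 : (1 - 2 * e) * a ≤ t * D := by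
      have := mul_le_mul_of_nonneg_right h1 hD.le
      rwa [mul_assoc, div_mul_cancel₀ _ hD.ne'] at this
    rw [one_div, mul_assoc, ← div_eq_inv_mul, le_div_iff₀ hc]
    linarith
  refine ⟨chn x p1 p2 p3 y, fun i => mu (chd a0 a1 a2 a3 i / D) + rem, rfl, rfl, ?_, ?_, ?_, ?_,
    ?_⟩
  · intro i hi
    have : 0 ≤ mu (chd a0 a1 a2 a3 i / D) := by
      apply hmu0
      apply div_nonneg _ hD.le
      interval_cases i <;> assumption
    positivity
  · simp only [sum_range_succ, sum_range_zero, chd]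
    rw [hrem]
    ring
  · intro i hi
    interval_cases i
    · exact h01.trans hhk
    · exact hk _ (le_max_left _ _)
    · exact hk _ (le_max_right _ _)
    · exact h34.trans hhk
  · intro i hi
    have hle : mu (chd a0 a1 a2 a3 i / D) ≤ mu (chd a0 a1 a2 a3 i / D) + rem := by linarith
    interval_cases i
    · exact key1 _ _ n0 hle
    · exact key1 _ _ n1 hle
    · exact key1 _ _ n2 hle
    · exact key1 _ _ n3 hle
  · intro i hi
    have hle : mu (chd a0 a1 a2 a3 i / D) ≤ mu (chd a0 a1 a2 a3 i / D) + rem := by linarith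
    interval_cases i
    · exact key2 _ _ hle
    · exact key2 _ _ hle
    · exact key2 _ _ hle
    · exact key2 _ _ hle

/-- PACKET SPL. -/
theorem spl (hSUP : P_SUP) (hNUM : P_NUM) : P_SPL := by
  intro e he he2
  have hb : 0 < 1 - e := by linarith
  have hb2 : 1 / 2 < 1 - e := by linarith
  set s : ℝ := 1 + Real.logb 2 (1 - e) with hs
  have hlog : -1 < Real.logb 2 (1 - e) := by
    rw [Real.lt_logb_iff_rpow_lt (by norm_num) hb]
    rw [Real.rpow_neg_one]
    linarith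
  have hlog0 : Real.logb 2 (1 - e) ≤ 0 :=
    Real.logb_nonpos (by norm_num) hb.le (by linarith)
  have hs0 : 0 < s := by rw [hs]; linarith
  have hs1 : s ≤ 1 := by rw [hs]; linarith
  have h2s : (2 : ℝ) ^ s = 2 * (1 - e) := by
    rw [hs, Real.rpow_add (by norm_num), Real.rpow_one,
      Real.rpow_logb (by norm_num) (by norm_num) hb]
  have hq : 1 ≤ 1 / s := by rw [le_div_iff₀ hs0]; linarith
  have hqs : 1 / s * s = 1 := by field_simp
  have h2q : (2 * (1 - e)) ^ (1 / s) = 2 := by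
    rw [← h2s, ← Real.rpow_mul (by norm_num), mul_comm, hqs, Real.rpow_one]
  obtain ⟨h, hh, hh4, hhq⟩ := exists_h e (1 / s) he he2 hq h2q
  have hc : 0 < 1 - 2 * e := by linarith
  refine ⟨1 - (1 - 2 * e) * h, by nlinarith, by nlinarith, ?_⟩
  intro M _ _ R hZ
  have main : ∀ x y : M, ∃ pt : (ℕ → M) × (ℕ → ℝ), x ≠ y → dist x y ≤ R →
      pt.1 0 = x ∧ pt.1 4 = y ∧ (∀ i < 4, 0 ≤ pt.2 i) ∧
      ∑ i ∈ range 4, pt.2 i = 1 ∧
      (∀ i < 4, dist (pt.1 i) (pt.1 (i + 1)) ≤ (1 - (1 - 2 * e) * h) * dist x y) ∧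
      (∀ i < 4, dist (pt.1 i) (pt.1 (i + 1)) ≤ (pt.2 i) ^ s * dist x y) ∧
      (∀ i < 4, dist (pt.1 i) (pt.1 (i + 1)) ≤ 1 / (1 - 2 * e) * pt.2 i * dist x y) := by
    intro x y
    by_cases hc : x ≠ y ∧ dist x y ≤ R
    · obtain ⟨p, t, hpt⟩ := one_pair hSUP hNUM e (1 / s) s h he he2 hq hqs h2q hh hh4 hhq M R
        hZ x y hc.1 hc.2
      exact ⟨(p, t), fun _ _ => hpt⟩
    · exact ⟨(fun _ => x, fun _ => 0), fun h1 h2 => absurd ⟨h1, h2⟩ hc⟩
  choose F hF using main
  refine ⟨fun x y => (F x y).1, fun x y => (F x y).2, ?_⟩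
  constructor
  · intro x y h1 h2; exact (hF x y h1 h2).1
  · intro x y h1 h2; exact (hF x y h1 h2).2.1
  · intro x y h1 h2; exact (hF x y h1 h2).2.2.1
  · intro x y h1 h2; exact (hF x y h1 h2).2.2.2.1
  · intro x y h1 h2; exact (hF x y h1 h2).2.2.2.2.1
  · intro x y h1 h2; exact (hF x y h1 h2).2.2.2.2.2.1
  · intro x y h1 h2; exact (hF x y h1 h2).2.2.2.2.2.2

end Pool.Agent.Helper35.PZ
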