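import Pool.Agent.Helper75.PZ.GoalsB

namespace Pool.Agent.Helper35.PZ

open Finset Filter Topology
open Pool.Agent.Helper75.PZ

/-- PACKET TRJ. -/
theorem trj : P_TRJ := by
  rintro M _ x y z ⟨g1, c1, a1, b1, v1⟩ ⟨g2, c2, a2, b2, v2⟩
  let g : ℝ → M := fun u => if u ≤ 1 / 2 then g1 (2 * u) else g2 (2 * u - 1)
  have hc : Continuous g := by
    apply Continuous.if_le
    · exact c1.comp (by fun_prop)
    · exact c2.comp (by fun_prop)
    · exact continuous_id
    · exact continuous_const
    · intro u hu
      have hu' : u = 1 / 2 := hu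
      rw [hu']
      norm_num
      rw [b1, a2]
  refine ⟨g, hc, ?_, ?_, ?_⟩
  · simp only [g]
    rw [if_pos (by norm_num)]
    simpa using a1
  · simp only [g]
    rw [if_neg (by norm_num)]
    norm_num
    exact b2
  · have hsplit : eVariationOn g (Set.Icc 0 1)
        = eVariationOn g (Set.Icc 0 (1 / 2)) + eVariationOn g (Set.Icc (1 / 2) 1) := by
      have := eVariationOn.union g (s := Set.Icc (0 : ℝ) (1 / 2)) (t := Set.Icc (1 / 2) 1)
        (x := 1 / 2) (isGreatest_Icc (by norm_num)) (isLeast_Icc (by norm_num))
      rw [Set.Icc_union_Icc_eq_Icc (by norm_num) (by norm_num)] at this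
      exact this
    rw [hsplit]
    have h1 : eVariationOn g (Set.Icc 0 (1 / 2)) ≤ eVariationOn g1 (Set.Icc 0 1) := by
      have he : Set.EqOn g (g1 ∘ fun u => 2 * u) (Set.Icc 0 (1 / 2)) := by
        intro u hu
        simp only [g, Function.comp]
        rw [if_pos hu.2]
      rw [eVariationOn.congr he]
      apply eVariationOn.comp_le_of_monotoneOn
      · intro u _ v _ huv
        show 2 * u ≤ 2 * v
        linarith
      · intro u hu
        constructor
        · show 0 ≤ 2 * u
          linarith [hu.1]
        · show 2 * u ≤ 1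
          linarith [hu.2]
    have h2 : eVariationOn g (Set.Icc (1 / 2) 1) ≤ eVariationOn g2 (Set.Icc 0 1) := by
      have he : Set.EqOn g (g2 ∘ fun u => 2 * u - 1) (Set.Icc (1 / 2) 1) := by
        intro u hu
        simp only [g, Function.comp]
        by_cases hh : u ≤ 1 / 2
        · have hu' : u = 1 / 2 := le_antisymm hh hu.1
          rw [if_pos hh, hu']
          norm_num
          rw [b1, a2]
        · rw [if_neg hh]
      rw [eVariationOn.congr he]
      apply eVariationOn.comp_le_of_monotoneOn
      · intro u _ v _ huv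
        show 2 * u - 1 ≤ 2 * v - 1
        linarith
      · intro u hu
        constructor
        · show 0 ≤ 2 * u - 1
          linarith [hu.1]
        · show 2 * u - 1 ≤ 1
          linarith [hu.2]
    exact ENNReal.add_ne_top.mpr
      ⟨ne_top_of_le_ne_top v1 h1, ne_top_of_le_ne_top v2 h2⟩

end Pool.Agent.Helper35.PZ
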